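import Pool.Agent.Helper11K9.DPT.Final

/-!
# Closed points in general position on unirational del Pezzo surfaces of degree 2, 3 and 4

Let `k` be an infinite field (of any characteristic), `K` its algebraic closure and `X` a
unirational del Pezzo surface over `k` of degree `d = 2`, `3` or `4`. Let `n 1, ..., n 8` be the
multiplicities of a partition of `n = ∑ i * n i ≤ d - 1` such that `k` has a separable extension of
degree `i` whenever `n i > 0`. Then `X` has a finite set `M` of closed points with separable residue
fields, exactly `n i` of them of degree `i` for every `i`, and whose geometric points are in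
general position. (For `d ≥ 5` this is known, `X` being rational.)

* `d = 2`: `X` is a double plane `w ^ 2 + q w = f` in `P(1, 1, 1, 2)`. The exceptional curves
  have no first order deformations, hence lie over finitely many lines of the plane; in
  characteristic two, `q ≠ 0`, because the surface `w ^ 2 = f` has a singular point: the critical
  points of a quartic form are the eigenvectors of a Frobenius semilinear map. So a general
  point of the image of the unirational parametrisation is in general position.
* `d = 3` (cubic surfaces) and `d = 4` (intersections of two quadrics): the starting file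
  `ClosedPoints`.
-/

universe u

namespace Pool.Agent.Results.MP_bd1cc3_ag.AllOpenDegrees

open MvPolynomial LinearAlgebra.Projectivization Pool.Agent.R865.DP Pool.Agent.Helper11K9.DPT

/-- **Closed points in general position on unirational del Pezzo surfaces** of degree `2`, `3`
and `4`. -/
theorem result {k : Type u} [Field k] [Infinite k] (n : ℕ → ℕ)
    (hsep : ∀ i ∈ Finset.Icc 1 8, 0 < n i → ∃ (L : Type u) (_ : Field L) (_ : Algebra k L),
      Algebra.IsSeparable k L ∧ Module.finrank k L = i) :
    (∀ q f : MvPolynomial (Fin 3) k,
      IsDelPezzoTwo (map (algebraMap k (AlgebraicClosure k)) q)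
        (map (algebraMap k (AlgebraicClosure k)) f) →
      IsUnirationalTwo (AlgebraicClosure k) q f →
      ∑ i ∈ Finset.Icc 1 8, i * n i ≤ 1 →
      ∃ M : Set (Set (Set ((Fin 3 → AlgebraicClosure k) × AlgebraicClosure k))), M.Finite ∧
        (∀ O ∈ M, IsSepClosedPointTwo (AlgebraicClosure k) q f O ∧ O.ncard ∈ Finset.Icc 1 8) ∧
        (∀ i ∈ Finset.Icc 1 8, {O ∈ M | O.ncard = i}.ncard = n i) ∧
        InGeneralPositionTwo (map (algebraMap k (AlgebraicClosure k)) q)
          (map (algebraMap k (AlgebraicClosure k)) f) (⋃₀ M)) ∧
    (∀ c e : ℕ, (c = 1 ∧ e = 3) ∨ (c = 2 ∧ e = 2) →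
      ∀ F : Fin c → MvPolynomial (Fin (c + 3)) k,
      IsDelPezzo e (fun a => map (algebraMap k (AlgebraicClosure k)) (F a)) →
      IsUnirational (AlgebraicClosure k) F →
      ∑ i ∈ Finset.Icc 1 8, i * n i ≤ c + 1 →
      ∃ M : Set (Set (ℙ (AlgebraicClosure k) (Fin (c + 3) → AlgebraicClosure k))), M.Finite ∧
        (∀ O ∈ M, IsSepClosedPoint (AlgebraicClosure k) F O ∧ O.ncard ∈ Finset.Icc 1 8) ∧
        (∀ i ∈ Finset.Icc 1 8, {O ∈ M | O.ncard = i}.ncard = n i) ∧
        InGeneralPosition (fun a => map (algebraMap k (AlgebraicClosure k)) (F a)) (⋃₀ M)) :=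
  ⟨fun q f hX hU hn => final_two q f hX hU n hn,
    fun _ _ hce F hX hU hn => final hce F hX hU n hn hsep⟩

end Pool.Agent.Results.MP_bd1cc3_ag.AllOpenDegrees
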